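import Mathlib

/-!
# A forest plus one edge has at most one cycle
-/

set_option autoImplicit false

namespace Q167.OneCycle

open SimpleGraph

/-- The graph contains at most one cycle: any two cycles have the same edges. -/
def AtMostOneCycle {V : Type} (G : SimpleGraph V) : Prop :=
  ∀ (u : V) (p : G.Walk u u) (v : V) (q : G.Walk v v), p.IsCycle → q.IsCycle →
    ∀ e : Sym2 V, e ∈ p.edges ↔ e ∈ q.edges

variable {V : Type}

lemma atMostOneCycle_of_isAcyclic {G : SimpleGraph V} (h : G.IsAcyclic) : AtMostOneCycle G :=
  fun _ p _ _ hp _ => absurd hp (h p)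

/-- A cycle based at `u` which contains the edge `s(u, v)`: the rest is a path. -/
lemma exists_path_of_cycle_at {G : SimpleGraph V} {u v : V} (p : G.Walk u u)
    (hp : p.IsCycle) (he : s(u, v) ∈ p.edges) :
    ∃ q : G.Walk v u, q.IsPath ∧ s(u, v) ∉ q.edges ∧ ∀ e, e ∈ p.edges ↔ e = s(u, v) ∨ e ∈ q.edges := by
  cases p with
  | nil => simp at he
  | cons h p1 =>
    rename_i x
    rw [Walk.cons_isCycle_iff] at hp
    obtain ⟨hp1, hx⟩ := hp
    by_cases hxv : x = v
    · subst hxv
      exact ⟨p1, hp1, hx, fun e => by simp⟩
    · -- the edge is the last one of `p1`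
      have he1 : s(u, v) ∈ p1.edges := by
        rw [Walk.edges_cons, List.mem_cons] at he
        rcases he with he | he
        · rw [Sym2.eq_iff] at he
          rcases he with ⟨_, h2⟩ | ⟨h1, h2⟩
          · exact absurd h2.symm hxv
          · exact absurd h1 h.ne
        · exact he
      have hrev : p1.reverse.IsPath := hp1.reverse
      have he2 : s(u, v) ∈ p1.reverse.edges := by
        rw [Walk.edges_reverse, List.mem_reverse]; exact he1
      have hmem : ∀ e, e ∈ p1.edges ↔ e ∈ p1.reverse.edges := by
        intro e; rw [Walk.edges_reverse, List.mem_reverse]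
      generalize p1.reverse = r at hrev he2 hmem
      cases r with
      | nil => simp at he2
      | cons h3 r1 =>
        rename_i y
        rw [Walk.cons_isPath_iff] at hrev
        obtain ⟨hr1, hu⟩ := hrev
        have hyv : y = v := by
          rw [Walk.edges_cons, List.mem_cons] at he2
          rcases he2 with he2 | he2
          · rw [Sym2.eq_iff] at he2
            rcases he2 with ⟨_, h4⟩ | ⟨h4, h5⟩
            · exact h4.symm
            · exact absurd h4 (by intro h6; exact h3.ne h6)
          · exact absurd (Walk.fst_mem_support_of_mem_edges _ he2) hu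
        subst hyv
        have hnot : s(u, y) ∉ r1.edges := fun h6 =>
          hu (Walk.fst_mem_support_of_mem_edges _ h6)
        refine ⟨r1.concat h.symm, ?_, ?_, ?_⟩
        · exact Walk.IsPath.concat hr1 hu h.symm
        · rw [Walk.edges_concat, List.concat_eq_append, List.mem_append, List.mem_singleton,
            not_or]
          refine ⟨hnot, ?_⟩
          intro h6
          rw [Sym2.eq_iff] at h6
          rcases h6 with ⟨h7, h8⟩ | ⟨h7, h8⟩
          · exact h.ne h7
          · exact hxv h8.symm
        · intro e
          rw [Walk.edges_cons, List.mem_cons, hmem, Walk.edges_cons, List.mem_cons,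
            Walk.edges_concat, List.concat_eq_append, List.mem_append, List.mem_singleton,
            Sym2.eq_swap (a := x) (b := u)]
          tauto

lemma exists_path_of_cycle [DecidableEq V] {G : SimpleGraph V} {u v w : V} (p : G.Walk w w)
    (hp : p.IsCycle) (he : s(u, v) ∈ p.edges) :
    ∃ q : G.Walk v u, q.IsPath ∧ s(u, v) ∉ q.edges ∧
      ∀ e, e ∈ p.edges ↔ e = s(u, v) ∨ e ∈ q.edges := by
  have hu : u ∈ p.support := Walk.fst_mem_support_of_mem_edges _ he
  have hrot := (Walk.rotate_edges p u hu).perm
  obtain ⟨q, h1, h2, h3⟩ := exists_path_of_cycle_at (p.rotate u hu) (hp.rotate hu)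
    (hrot.mem_iff.2 he)
  exact ⟨q, h1, h2, fun e => by rw [← hrot.mem_iff]; exact h3 e⟩

/-- If deleting one edge gives an acyclic graph, there is at most one cycle. -/
lemma atMostOneCycle_of_deleteEdges {G : SimpleGraph V} (e : Sym2 V)
    (h : (G.deleteEdges {e}).IsAcyclic) : AtMostOneCycle G := by
  classical
  induction e with
  | _ u v =>
    have key : ∀ (w : V) (p : G.Walk w w), p.IsCycle → s(u, v) ∈ p.edges := by
      intro w p hp
      by_contra hcon
      have h1 : ∀ e ∈ p.edges, e ∈ (G.deleteEdges {s(u, v)}).edgeSet := by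
        intro e he
        rw [edgeSet_deleteEdges]
        refine ⟨Walk.edges_subset_edgeSet p he, ?_⟩
        intro h2
        rw [Set.mem_singleton_iff] at h2
        exact hcon (h2 ▸ he)
      exact h _ (hp.transfer h1)
    intro w p w' q hp hq f
    obtain ⟨p1, hp1, hp2, hp3⟩ := exists_path_of_cycle p hp (key w p hp)
    obtain ⟨q1, hq1, hq2, hq3⟩ := exists_path_of_cycle q hq (key w' q hq)
    have tr : ∀ (r : G.Walk v u), s(u, v) ∉ r.edges →
        ∀ e ∈ r.edges, e ∈ (G.deleteEdges {s(u, v)}).edgeSet := by
      intro r hr e he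
      rw [edgeSet_deleteEdges]
      refine ⟨Walk.edges_subset_edgeSet r he, ?_⟩
      intro h2
      rw [Set.mem_singleton_iff] at h2
      exact hr (h2 ▸ he)
    have hP := hp1.transfer (tr p1 hp2)
    have hQ := hq1.transfer (tr q1 hq2)
    have huniq := h.path_unique ⟨_, hP⟩ ⟨_, hQ⟩
    have h5 : (p1.transfer _ (tr p1 hp2)) = (q1.transfer _ (tr q1 hq2)) :=
      congrArg Subtype.val huniq
    have h6 : p1.edges = q1.edges := by
      have := congrArg Walk.edges h5
      rwa [Walk.edges_transfer, Walk.edges_transfer] at this
    rw [hp3, hq3, h6]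

end Q167.OneCycle
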