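import Pool.Agent.Q167.OneCycle.Cycle

/-!
# The biased Avoider-Enforcer game on the complete graph

Avoider moves first and claims one edge per turn, Enforcer claims `b` edges per turn (strict rules),
or at least one and at least `b` edges (monotone rules).
-/

set_option autoImplicit false

namespace Q167.OneCycle

/-- The board: the edges of the complete graph on `Fin n`. -/
def board (n : ℕ) : Finset (Sym2 (Fin n)) := Finset.univ.filter (fun e => ¬ e.IsDiag)

/-- A position: the edges claimed by Avoider and the edges claimed by Enforcer so far. -/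
structure Pos (n : ℕ) where
  avoider : Finset (Sym2 (Fin n))
  enforcer : Finset (Sym2 (Fin n))

/-- The unclaimed edges. -/
def free {n : ℕ} (p : Pos n) : Finset (Sym2 (Fin n)) := board n \ (p.avoider ∪ p.enforcer)

/-- The two rule sets. -/
inductive Rules
  | strict
  | monotone

/-- `T` is a legal turn, when the free edges are `F`, of a player whose number is `k`. Strict rules:
exactly `k` edges; monotone rules: at least `k` edges. If fewer than `k` edges are free, the player
claims all of them. -/
def LegalTurn {n : ℕ} (r : Rules) (k : ℕ) (F T : Finset (Sym2 (Fin n))) : Prop :=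
  T ⊆ F ∧ match r with
    | Rules.strict => T.card = min k F.card
    | Rules.monotone => min k F.card ≤ T.card

/-- The play in which Avoider follows the strategy `σ` and Enforcer claims the set `R i` in his
`i`-th turn: `play σ R i` is the position after `i` rounds (Avoider moves first in each round). -/
def play {n : ℕ} (σ : Pos n → Finset (Sym2 (Fin n))) (R : ℕ → Finset (Sym2 (Fin n))) : ℕ → Pos n
  | 0 => ⟨∅, ∅⟩
  | i + 1 => ⟨(play σ R i).avoider ∪ σ (play σ R i), (play σ R i).enforcer ∪ R i⟩

/-- Avoider has a strategy in the `(1:b)` game on the edges of `K_n` under the rules `r` such that,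
against every legal play of Enforcer, the game ends (all edges are claimed) with a graph of Avoider
which contains at most one cycle. -/
def AvoiderKeepsOneCycle (r : Rules) (n b : ℕ) : Prop :=
  ∃ σ : Pos n → Finset (Sym2 (Fin n)),
    (∀ p, LegalTurn r 1 (free p) (σ p)) ∧
    ∀ R : ℕ → Finset (Sym2 (Fin n)),
      (∀ i, LegalTurn r b (free (play σ R i) \ σ (play σ R i)) (R i)) →
      ∃ i, free (play σ R i) = ∅ ∧
        AtMostOneCycle (SimpleGraph.fromEdgeSet ((play σ R i).avoider : Set (Sym2 (Fin n))))

/-! ## Winning regions give strategies -/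

lemma exists_legalTurn {n : ℕ} (r : Rules) (F : Finset (Sym2 (Fin n))) :
    ∃ T, LegalTurn r 1 F T := by
  obtain ⟨T, hT, hc⟩ := Finset.exists_subset_card_eq (s := F) (n := min 1 F.card)
    (min_le_right _ _)
  refine ⟨T, hT, ?_⟩
  cases r
  · exact hc
  · exact hc.ge

lemma strategy_of_region {n b : ℕ} (r : Rules) (S : Pos n → Prop) (h0 : S ⟨∅, ∅⟩)
    (hend : ∀ p, S p → free p = ∅ →
      AtMostOneCycle (SimpleGraph.fromEdgeSet (p.avoider : Set (Sym2 (Fin n)))))
    (hstep : ∀ p, S p → (free p).Nonempty → ∃ e ∈ free p, ∀ T : Finset (Sym2 (Fin n)),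
      T ⊆ free p \ {e} → min b (free p \ {e}).card ≤ T.card →
        S ⟨p.avoider ∪ {e}, p.enforcer ∪ T⟩) :
    AvoiderKeepsOneCycle r n b := by
  classical
  have hstep' : ∀ p : Pos n, ∃ A : Finset (Sym2 (Fin n)), LegalTurn r 1 (free p) A ∧
      (S p → (free p).Nonempty → A.Nonempty ∧ ∀ T : Finset (Sym2 (Fin n)),
        T ⊆ free p \ A → min b (free p \ A).card ≤ T.card →
          S ⟨p.avoider ∪ A, p.enforcer ∪ T⟩) := by
    intro p
    by_cases hS : S p ∧ (free p).Nonempty
    · obtain ⟨e, he, h⟩ := hstep p hS.1 hS.2
      refine ⟨{e}, ?_, fun _ _ => ⟨Finset.singleton_nonempty _, h⟩⟩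
      have hc : 1 ≤ (free p).card := Finset.card_pos.2 hS.2
      refine ⟨Finset.singleton_subset_iff.2 he, ?_⟩
      cases r
      · simp only [Finset.card_singleton]; omega
      · simp only [Finset.card_singleton]; omega
    · obtain ⟨A, hA⟩ := exists_legalTurn r (free p)
      exact ⟨A, hA, fun h1 h2 => absurd ⟨h1, h2⟩ hS⟩
  choose σ hσ1 hσ2 using hstep'
  refine ⟨σ, hσ1, fun R hR => ?_⟩
  have hR' : ∀ i, R i ⊆ free (play σ R i) \ σ (play σ R i) ∧
      min b (free (play σ R i) \ σ (play σ R i)).card ≤ (R i).card := by
    intro i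
    obtain ⟨h1, h2⟩ := hR i
    refine ⟨h1, ?_⟩
    cases r
    · exact h2.ge
    · exact h2
  -- the number of free edges decreases
  have hfree : ∀ i, free (play σ R (i + 1)) = (free (play σ R i) \ σ (play σ R i)) \ R i := by
    intro i
    simp only [free, play]
    ext e
    simp only [Finset.mem_sdiff, Finset.mem_union]
    tauto
  by_contra hcon
  push Not at hcon
  have hinv : ∀ i, S (play σ R i) ∧ (free (play σ R i)).card + i ≤ (board n).card := by
    intro i
    induction i with
    | zero =>
      refine ⟨h0, ?_⟩
      simp [play, free]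
    | succ i ih =>
      obtain ⟨hSi, hc⟩ := ih
      have hne : (free (play σ R i)).Nonempty := by
        rw [Finset.nonempty_iff_ne_empty]
        intro he
        exact hcon i he (hend _ hSi he)
      obtain ⟨hA, hT⟩ := hσ2 _ hSi hne
      refine ⟨hT _ (hR' i).1 (hR' i).2, ?_⟩
      rw [hfree i]
      have h1 : ((free (play σ R i) \ σ (play σ R i)) \ R i).card
          ≤ (free (play σ R i) \ σ (play σ R i)).card :=
        Finset.card_le_card Finset.sdiff_subset
      have h2 := Finset.card_sdiff_add_card_eq_card (hσ1 (play σ R i)).1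
      have h3 := Finset.card_pos.2 hA
      omega
  have := (hinv ((board n).card + 1)).2
  omega

end Q167.OneCycle
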