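import Pool.Agent.Q167.OneCycle.Potential

/-!
# Avoider keeps his graph acyclic until the last turn, when `b ≥ 56 n`
-/

set_option autoImplicit false

namespace Q167.OneCycle

open SimpleGraph

variable {n : ℕ}

/-- The graph of Avoider. -/
abbrev gr (A : Finset (Sym2 (Fin n))) : SimpleGraph (Fin n) := fromEdgeSet (A : Set (Sym2 (Fin n)))

lemma gr_insert (A : Finset (Sym2 (Fin n))) (u v : Fin n) :
    gr (A ∪ {s(u, v)}) = gr A ⊔ edge u v := by
  ext x y
  simp only [gr, edge, sup_adj, fromEdgeSet_adj, Finset.mem_coe, Finset.mem_union,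
    Finset.mem_singleton, Set.mem_singleton_iff]
  tauto

/-- The invariant before a turn of Avoider in which many edges are free. -/
def Good (b : ℕ) (A : Finset (Sym2 (Fin n))) (F : ℕ) (c : Fin n → Fin n) : Prop :=
  (∀ u v, s(u, v) ∈ A → c u = c v) ∧
  2 * (Phi c : ℝ) ^ 2 * F ≤ (n : ℝ) ^ 4 ∧
  (Qs c : ℝ) * √((b : ℝ) + 1) ≤ n * √((b : ℝ) + 1) + 2 * n * (√(n : ℝ) - √√(F : ℝ))

/-- The winning region. -/
def Region (b : ℕ) (p : Pos n) : Prop :=
  (free p = ∅ ∧ AtMostOneCycle (gr p.avoider)) ∨
  ((gr p.avoider).IsAcyclic ∧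
    (b + 1 < (free p).card → ∃ c : Fin n → Fin n, Good b p.avoider (free p).card c))

lemma not_reachable_of_label {A : Finset (Sym2 (Fin n))} {c : Fin n → Fin n}
    (h : ∀ u v, s(u, v) ∈ A → c u = c v) {u v : Fin n} (huv : c u ≠ c v) :
    ¬ (gr A).Reachable u v := by
  rintro ⟨p⟩
  apply huv
  clear huv
  induction p with
  | nil => rfl
  | cons hadj _ ih =>
    rw [fromEdgeSet_adj] at hadj
    exact (h _ _ hadj.1).trans ih

lemma start_region (hn : 0 < n) (b : ℕ) : Region b (⟨∅, ∅⟩ : Pos n) := by
  right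
  refine ⟨?_, fun _ => ⟨id, ?_, ?_, ?_⟩⟩
  · have : gr (∅ : Finset (Sym2 (Fin n))) = ⊥ := by simp [gr]
    rw [this]
    exact isAcyclic_bot
  · intro u v h
    simp at h
  all_goals
    have hsz : ∀ v : Fin n, sz id v = 1 := by
      intro v
      unfold sz
      rw [Finset.card_eq_one]
      exact ⟨v, by ext w; simp⟩
    have hfree : (free (⟨∅, ∅⟩ : Pos n)).card * 2 ≤ n * n := by
      have h1 : free (⟨∅, ∅⟩ : Pos n) ⊆ board n := Finset.sdiff_subset
      have h2 := card_pairs (free (⟨∅, ∅⟩ : Pos n)) h1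
      have h3 := Finset.card_le_univ
        (Finset.univ.filter (fun p : Fin n × Fin n => s(p.1, p.2) ∈ free (⟨∅, ∅⟩ : Pos n)))
      rw [h2, Fintype.card_prod, Fintype.card_fin] at h3
      omega
    have hfree' : ((free (⟨∅, ∅⟩ : Pos n)).card : ℝ) * 2 ≤ n * n := by exact_mod_cast hfree
    have hn' : (1 : ℝ) ≤ n := by exact_mod_cast hn
  · have hPhi : Phi (id : Fin n → Fin n) = n := by
      unfold Phi
      simp [hsz]
    rw [hPhi]
    nlinarith [pow_nonneg (by linarith : (0 : ℝ) ≤ n) 2]
  · have hQ : Qs (id : Fin n → Fin n) = n := by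
      unfold Qs
      simp [hsz]
    rw [hQ]
    have h1 : √√((free (⟨∅, ∅⟩ : Pos n)).card : ℝ) ≤ √(n : ℝ) := by
      apply Real.sqrt_le_sqrt
      rw [Real.sqrt_le_left (by linarith)]
      nlinarith [Nat.cast_nonneg (α := ℝ) (free (⟨∅, ∅⟩ : Pos n)).card]
    nlinarith

lemma step_region (hn : 0 < n) {b : ℕ} (hb : 56 * n ≤ b) (p : Pos n) (hp : Region b p)
    (hne : (free p).Nonempty) :
    ∃ e ∈ free p, ∀ T : Finset (Sym2 (Fin n)),
      T ⊆ free p \ {e} → min b (free p \ {e}).card ≤ T.card →
        Region b ⟨p.avoider ∪ {e}, p.enforcer ∪ T⟩ := by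
  classical
  have hfree : ∀ (e : Sym2 (Fin n)) (T : Finset (Sym2 (Fin n))),
      free (⟨p.avoider ∪ {e}, p.enforcer ∪ T⟩ : Pos n) = (free p \ {e}) \ T := by
    intro e T
    simp only [free]
    ext x
    simp only [Finset.mem_sdiff, Finset.mem_union]
    tauto
  rcases hp with ⟨h0, _⟩ | ⟨hac, hgood⟩
  · rw [h0] at hne
    exact absurd hne (by simp)
  by_cases hbig : b + 1 < (free p).card
  · obtain ⟨c, hc1, hc2, hc3⟩ := hgood hbig
    have hnR : (1 : ℝ) ≤ n := by exact_mod_cast hn
    have hbR : (56 : ℝ) * n ≤ b := by exact_mod_cast hb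
    set h : ℝ := √((b : ℝ) + 1) with hh
    have hB0 : (0 : ℝ) < (b : ℝ) + 1 := by positivity
    have hh0 : 0 < h := Real.sqrt_pos.2 hB0
    have hh2 : h ^ 2 = (b : ℝ) + 1 := Real.sq_sqrt hB0.le
    have hQ : Qs c ≤ 2 * n := by
      have h1 : 2 * √(n : ℝ) ≤ h := by
        rw [hh]
        apply Real.le_sqrt_of_sq_le
        rw [mul_pow, Real.sq_sqrt (by linarith)]
        linarith
      have h2 : (Qs c : ℝ) * h ≤ 2 * n * h := by
        have h3 : 0 ≤ √√((free p).card : ℝ) := Real.sqrt_nonneg _
        nlinarith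
      have h3 : (Qs c : ℝ) ≤ 2 * n := le_of_mul_le_mul_right h2 hh0
      exact_mod_cast h3
    obtain ⟨u, v, huv, hcuv, hD⟩ := exists_good_edge (free p) Finset.sdiff_subset c (b + 1)
      (by omega) hbig hQ
    refine ⟨s(u, v), huv, fun T hT hTc => Or.inr ⟨?_, ?_⟩⟩
    · simp only [gr_insert]
      exact IsAcyclic.sup_edge_of_not_reachable (not_reachable_of_label hc1 hcuv) hac
    · intro hbig'
      rw [hfree] at hbig' ⊢
      set F := (free p).card with hF
      set F' := ((free p \ {s(u, v)}) \ T).card with hF'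
      have e1 : (free p \ {s(u, v)}).card + 1 = F := by
        have := Finset.card_sdiff_add_card_eq_card (Finset.singleton_subset_iff.2 huv)
        rw [Finset.card_singleton] at this
        exact this
      have e2 : F' + T.card = (free p \ {s(u, v)}).card := Finset.card_sdiff_add_card_eq_card hT
      have e3 : F' + (b + 1) ≤ F := by
        rcases le_total b (free p \ {s(u, v)}).card with h4 | h4
        · rw [min_eq_left h4] at hTc; omega
        · omega
      have e3R : (F' : ℝ) ≤ F - ((b : ℝ) + 1) := by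
        have : (F' : ℝ) + ((b : ℝ) + 1) ≤ F := by exact_mod_cast e3
        linarith
      have hDR : 2 * (F : ℝ) * (D4 (sz c u) (sz c v) : ℝ) ≤ Phi c * ((b : ℝ) + 1) := by
        exact_mod_cast hD
      refine ⟨merge c u v, ?_, ?_, ?_⟩
      · intro x y hxy
        rw [Finset.mem_union, Finset.mem_singleton] at hxy
        rcases hxy with hxy | hxy
        · have := hc1 x y hxy
          unfold merge
          rw [this]
        · rw [Sym2.eq_iff] at hxy
          unfold merge
          rcases hxy with ⟨rfl, rfl⟩ | ⟨rfl, rfl⟩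
          · rw [if_neg hcuv, if_pos rfl]
          · rw [if_neg hcuv, if_pos rfl]
      · rw [Phi_merge c hcuv]
        push_cast
        exact phi_step (Nat.cast_nonneg _) (Nat.cast_nonneg _) hB0 (Nat.cast_nonneg _) e3R hDR hc2
      · rw [Qs_merge c hcuv]
        have hFpos : (0 : ℝ) < F := by
          have : 0 < F := by omega
          exact_mod_cast this
        set g : ℝ := √√(F : ℝ) with hg
        set g' : ℝ := √√(F' : ℝ) with hg'
        have hg4 : g ^ 4 = F := by
          rw [hg, show (4 : ℕ) = 2 * 2 from rfl, pow_mul, Real.sq_sqrt (Real.sqrt_nonneg _),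
            Real.sq_sqrt hFpos.le]
        have hg4' : g' ^ 4 = F' := by
          rw [hg', show (4 : ℕ) = 2 * 2 from rfl, pow_mul, Real.sq_sqrt (Real.sqrt_nonneg _),
            Real.sq_sqrt (Nat.cast_nonneg _)]
        have hgpos : 0 < g := Real.sqrt_pos.2 (Real.sqrt_pos.2 hFpos)
        have hq := q_step (Φ := Phi c) (D := D4 (sz c u) (sz c v))
          (P := ((sz c u * sz c v : ℕ) : ℝ)) (n := n) (g := g) (g' := g') (h := h)
          (Nat.cast_nonneg _) (by linarith) hgpos (Real.sqrt_nonneg _) hh0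
          (by rw [hg4, hg4', hh2]; exact e3R) (by exact_mod_cast le_D4 (sz c u) (sz c v))
          (by rw [hg4, hh2]; exact hDR) (by rw [hg4]; exact hc2)
        push_cast at hq ⊢
        nlinarith
  · -- the last turn
    push Not at hbig
    obtain ⟨e, he⟩ := hne
    refine ⟨e, he, fun T hT hTc => Or.inl ⟨?_, ?_⟩⟩
    · rw [hfree]
      have e1 : (free p \ {e}).card + 1 = (free p).card := by
        have := Finset.card_sdiff_add_card_eq_card (Finset.singleton_subset_iff.2 he)
        rw [Finset.card_singleton] at this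
        exact this
      have e2 : ((free p \ {e}) \ T).card + T.card = (free p \ {e}).card :=
        Finset.card_sdiff_add_card_eq_card hT
      rw [min_eq_right (by omega)] at hTc
      rw [← Finset.card_eq_zero]
      omega
    · apply atMostOneCycle_of_deleteEdges e
      refine hac.anti ?_
      intro x y hxy
      rw [deleteEdges_adj, fromEdgeSet_adj] at hxy
      rw [fromEdgeSet_adj]
      obtain ⟨⟨h1, h2⟩, h3⟩ := hxy
      refine ⟨?_, h2⟩
      rw [Finset.mem_coe, Finset.mem_union, Finset.mem_singleton] at h1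
      rcases h1 with h1 | h1
      · exact h1
      · exact absurd h1 h3

/-- Avoider keeps at most one cycle, for every bias `b ≥ 56 n`, under both rule sets. -/
theorem avoider_keeps_one_cycle (n b : ℕ) (hb : 56 * n ≤ b) (r : Rules) :
    AvoiderKeepsOneCycle r n b := by
  rcases Nat.eq_zero_or_pos n with rfl | hn
  · apply strategy_of_region r (fun _ => True) trivial
    · intro p _ _
      apply atMostOneCycle_of_isAcyclic
      intro v
      exact v.elim0
    · intro p _ hne
      obtain ⟨e, he⟩ := hne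
      induction e with
      | _ u v => exact u.elim0
  · refine strategy_of_region r (Region b) (start_region hn b) ?_ (step_region hn hb)
    intro p hp h0
    rcases hp with ⟨_, h⟩ | ⟨h, _⟩
    · exact h
    · exact atMostOneCycle_of_isAcyclic h

end Q167.OneCycle
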