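import Pool.Agent.Q167.OneCycle.Game

/-!
# The fourth-moment potential
-/

set_option autoImplicit false

namespace Q167.OneCycle

variable {n : ℕ}

/-- The size of the class of `v` under the labelling `c`. -/
def sz (c : Fin n → Fin n) (v : Fin n) : ℕ := (Finset.univ.filter (fun w => c w = c v)).card

/-- Sum of the squares of the class sizes. -/
def Qs (c : Fin n → Fin n) : ℕ := ∑ v, sz c v

/-- Sum of the fourth powers of the class sizes. -/
def Phi (c : Fin n → Fin n) : ℕ := ∑ v, sz c v ^ 3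

/-- `(x + y) ^ 4 - x ^ 4 - y ^ 4` -/
def D4 (x y : ℕ) : ℕ := 4 * x ^ 3 * y + 6 * x ^ 2 * y ^ 2 + 4 * x * y ^ 3

/-- Merging two classes. -/
def merge (c : Fin n → Fin n) (u v : Fin n) : Fin n → Fin n :=
  fun w => if c w = c v then c u else c w

lemma sz_merge (c : Fin n → Fin n) {u v : Fin n} (h : c u ≠ c v) (w : Fin n) :
    sz (merge c u v) w = if c w = c u ∨ c w = c v then sz c u + sz c v else sz c w := by
  have hunion : (Finset.univ.filter (fun w' => c w' = c u ∨ c w' = c v)).card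
      = sz c u + sz c v := by
    rw [Finset.filter_or, Finset.card_union_of_disjoint]
    · rfl
    · rw [Finset.disjoint_filter]
      intro x _ h1 h2
      exact h (h1.symm.trans h2)
  split_ifs with hw
  · rw [← hunion]
    unfold sz
    congr 1
    apply Finset.filter_congr
    intro w' _
    have h1 : merge c u v w = c u := by
      unfold merge
      split_ifs with h2
      · rfl
      · rcases hw with h3 | h3
        · exact h3
        · exact absurd h3 h2
    rw [h1]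
    unfold merge
    split_ifs with h2
    · simp [h2]
    · simp [h2]
  · push Not at hw
    unfold sz
    congr 1
    apply Finset.filter_congr
    intro w' _
    have h1 : merge c u v w = c w := by
      unfold merge
      rw [if_neg hw.2]
    rw [h1]
    unfold merge
    split_ifs with h2
    · constructor
      · intro h3; exact absurd h3.symm hw.1
      · intro h3; exact absurd (h3.symm.trans h2) hw.2
    · rfl

lemma sum_merge (c : Fin n → Fin n) {u v : Fin n} (h : c u ≠ c v) (g : ℕ → ℕ) :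
    ∑ w, g (sz (merge c u v) w) + sz c u * g (sz c u) + sz c v * g (sz c v)
      = ∑ w, g (sz c w) + (sz c u + sz c v) * g (sz c u + sz c v) := by
  have hpt : ∀ w : Fin n, g (sz (merge c u v) w) + (if c w = c u then g (sz c u) else 0)
      + (if c w = c v then g (sz c v) else 0)
      = g (sz c w) + (if c w = c u then g (sz c u + sz c v) else 0)
        + (if c w = c v then g (sz c u + sz c v) else 0) := by
    intro w
    rw [sz_merge c h]
    by_cases h1 : c w = c u
    · have h2 : c w ≠ c v := fun h3 => h (h1.symm.trans h3)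
      have h4 : sz c w = sz c u := by unfold sz; rw [h1]
      rw [if_pos (Or.inl h1), if_pos h1, if_neg h2, if_pos h1, if_neg h2, h4]
      ring
    · by_cases h2 : c w = c v
      · have h4 : sz c w = sz c v := by unfold sz; rw [h2]
        rw [if_pos (Or.inr h2), if_neg h1, if_pos h2, if_neg h1, if_pos h2, h4]
        ring
      · rw [if_neg (by tauto), if_neg h1, if_neg h2, if_neg h1, if_neg h2]
  have hsum := Finset.sum_congr (rfl : (Finset.univ : Finset (Fin n)) = Finset.univ)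
    (fun w _ => hpt w)
  have hcount : ∀ (a : Fin n) (k : ℕ), ∑ w : Fin n, (if c w = c a then k else 0) = sz c a * k := by
    intro a k
    rw [← Finset.sum_filter, Finset.sum_const, smul_eq_mul]
    rfl
  simp only [Finset.sum_add_distrib, hcount] at hsum
  rw [add_mul]
  linarith

lemma Qs_merge (c : Fin n → Fin n) {u v : Fin n} (h : c u ≠ c v) :
    Qs (merge c u v) = Qs c + 2 * (sz c u * sz c v) := by
  have := sum_merge c h (fun t => t)
  unfold Qs
  nlinarith [this]

lemma Phi_merge (c : Fin n → Fin n) {u v : Fin n} (h : c u ≠ c v) :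
    Phi (merge c u v) = Phi c + D4 (sz c u) (sz c v) := by
  have := sum_merge c h (fun t => t ^ 3)
  unfold Phi D4
  nlinarith [this]

lemma D4_le (x y : ℕ) : D4 x y ≤ 7 * (x ^ 3 * y) + 7 * (x * y ^ 3) := by
  unfold D4
  have h : 2 * (x ^ 2 * y ^ 2) ≤ x ^ 3 * y + x * y ^ 3 := by
    rcases le_total x y with hxy | hxy
    · obtain ⟨d, rfl⟩ := Nat.exists_eq_add_of_le hxy
      nlinarith [Nat.zero_le (x * (x + d) * d ^ 2), Nat.zero_le (x ^ 2 * d ^ 2),
        Nat.zero_le (x * d ^ 3)]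
    · obtain ⟨d, rfl⟩ := Nat.exists_eq_add_of_le hxy
      nlinarith [Nat.zero_le (y * (y + d) * d ^ 2), Nat.zero_le (y ^ 2 * d ^ 2),
        Nat.zero_le (y * d ^ 3)]
  nlinarith

lemma le_D4 (x y : ℕ) : 14 * (x * y) ^ 2 ≤ D4 x y := by
  unfold D4
  have h : 2 * (x ^ 2 * y ^ 2) ≤ x ^ 3 * y + x * y ^ 3 := by
    rcases le_total x y with hxy | hxy
    · obtain ⟨d, rfl⟩ := Nat.exists_eq_add_of_le hxy
      nlinarith [Nat.zero_le (x * (x + d) * d ^ 2), Nat.zero_le (x ^ 2 * d ^ 2),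
        Nat.zero_le (x * d ^ 3)]
    · obtain ⟨d, rfl⟩ := Nat.exists_eq_add_of_le hxy
      nlinarith [Nat.zero_le (y * (y + d) * d ^ 2), Nat.zero_le (y ^ 2 * d ^ 2),
        Nat.zero_le (y * d ^ 3)]
  nlinarith

lemma sum_D4_le (c : Fin n → Fin n) :
    ∑ p : Fin n × Fin n, D4 (sz c p.1) (sz c p.2) ≤ 14 * (Phi c * Qs c) := by
  calc ∑ p : Fin n × Fin n, D4 (sz c p.1) (sz c p.2)
      ≤ ∑ p : Fin n × Fin n, (7 * (sz c p.1 ^ 3 * sz c p.2) + 7 * (sz c p.1 * sz c p.2 ^ 3)) :=
        Finset.sum_le_sum (fun p _ => D4_le _ _)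
    _ = 14 * (Phi c * Qs c) := by
        rw [Finset.sum_add_distrib, ← Finset.mul_sum, ← Finset.mul_sum, Fintype.sum_prod_type,
          Fintype.sum_prod_type]
        simp only [← Finset.mul_sum, ← Finset.sum_mul]
        unfold Phi Qs
        ring

/-! ## Counting free edges -/

lemma card_pairs (F : Finset (Sym2 (Fin n))) (hF : F ⊆ board n) :
    (Finset.univ.filter (fun p : Fin n × Fin n => s(p.1, p.2) ∈ F)).card = 2 * F.card := by
  classical
  rw [Finset.card_eq_sum_card_fiberwise (f := fun p : Fin n × Fin n => s(p.1, p.2)) (t := F)]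
  · rw [Finset.sum_const_nat (m := 2), mul_comm]
    intro e he
    have hd : ¬ e.IsDiag := (Finset.mem_filter.1 (hF he)).2
    induction e with
    | _ u v =>
      have huv : u ≠ v := hd
      have : Finset.filter (fun p : Fin n × Fin n => s(p.1, p.2) = s(u, v))
          (Finset.univ.filter (fun p : Fin n × Fin n => s(p.1, p.2) ∈ F))
          = {(u, v), (v, u)} := by
        ext ⟨a, b⟩
        simp only [Finset.mem_filter, Finset.mem_univ, true_and, Finset.mem_insert,
          Finset.mem_singleton, Prod.mk.injEq, Sym2.eq_iff]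
        constructor
        · rintro ⟨_, h⟩; exact h
        · intro h
          refine ⟨?_, h⟩
          rcases h with ⟨rfl, rfl⟩ | ⟨rfl, rfl⟩
          · exact he
          · rw [Sym2.eq_swap]; exact he
      rw [this, Finset.card_pair]
      intro h
      rw [Prod.mk.injEq] at h
      exact huv h.1
  · intro p hp
    simpa using hp

lemma card_class_pairs (c : Fin n → Fin n) :
    (Finset.univ.filter (fun p : Fin n × Fin n => c p.1 = c p.2)).card = Qs c := by
  classical
  rw [Finset.card_filter, Fintype.sum_prod_type, Finset.sum_comm]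
  unfold Qs sz
  apply Finset.sum_congr rfl
  intro v _
  rw [Finset.card_filter]

/-- Avoider's choice: a free edge between two classes with a small increase of the potential. -/
lemma exists_good_edge (F : Finset (Sym2 (Fin n))) (hF : F ⊆ board n) (c : Fin n → Fin n) (B : ℕ)
    (hB : 56 * n ≤ B) (hFB : B < F.card) (hQ : Qs c ≤ 2 * n) :
    ∃ u v : Fin n, s(u, v) ∈ F ∧ c u ≠ c v ∧
      2 * F.card * D4 (sz c u) (sz c v) ≤ Phi c * B := by
  classical
  set O := Finset.univ.filter (fun p : Fin n × Fin n => s(p.1, p.2) ∈ F ∧ c p.1 ≠ c p.2) with hO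
  have hcard : F.card ≤ O.card := by
    have h1 : (Finset.univ.filter (fun p : Fin n × Fin n => s(p.1, p.2) ∈ F)) ⊆
        O ∪ (Finset.univ.filter (fun p : Fin n × Fin n => c p.1 = c p.2)) := by
      intro p hp
      rw [Finset.mem_filter] at hp
      rw [Finset.mem_union, hO, Finset.mem_filter, Finset.mem_filter]
      by_cases h : c p.1 = c p.2
      · exact Or.inr ⟨Finset.mem_univ _, h⟩
      · exact Or.inl ⟨Finset.mem_univ _, hp.2, h⟩
    have h2 := (Finset.card_le_card h1).trans (Finset.card_union_le _ _)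
    rw [card_pairs F hF, card_class_pairs] at h2
    omega
  have hne : O.Nonempty := by
    rw [← Finset.card_pos]; omega
  obtain ⟨⟨u, v⟩, hmem, hmin⟩ := Finset.exists_min_image O
    (fun p => D4 (sz c p.1) (sz c p.2)) hne
  rw [hO, Finset.mem_filter] at hmem
  refine ⟨u, v, hmem.2.1, hmem.2.2, ?_⟩
  have h3 : O.card * D4 (sz c u) (sz c v) ≤ 14 * (Phi c * Qs c) := by
    calc O.card * D4 (sz c u) (sz c v) = ∑ _p ∈ O, D4 (sz c u) (sz c v) := by
          rw [Finset.sum_const, smul_eq_mul]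
      _ ≤ ∑ p ∈ O, D4 (sz c p.1) (sz c p.2) := Finset.sum_le_sum (fun p hp => hmin p hp)
      _ ≤ ∑ p : Fin n × Fin n, D4 (sz c p.1) (sz c p.2) :=
          Finset.sum_le_sum_of_subset (Finset.subset_univ _)
      _ ≤ 14 * (Phi c * Qs c) := sum_D4_le c
  calc 2 * F.card * D4 (sz c u) (sz c v) ≤ 2 * (O.card * D4 (sz c u) (sz c v)) := by
        rw [mul_assoc]
        exact Nat.mul_le_mul_left 2 (Nat.mul_le_mul_right _ hcard)
    _ ≤ 2 * (14 * (Phi c * Qs c)) := Nat.mul_le_mul_left 2 h3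
    _ ≤ 2 * (14 * (Phi c * (2 * n))) := by gcongr
    _ = Phi c * (56 * n) := by ring
    _ ≤ Phi c * B := Nat.mul_le_mul_left _ hB

/-! ## Numerical steps -/

/-- The step for the fourth-moment potential. -/
lemma phi_step {Φ D F F' B N : ℝ} (hΦ : 0 ≤ Φ) (hD : 0 ≤ D) (hB : 0 < B) (hF' : 0 ≤ F')
    (hFF : F' ≤ F - B) (h1 : 2 * F * D ≤ Φ * B) (h2 : 2 * Φ ^ 2 * F ≤ N) :
    2 * (Φ + D) ^ 2 * F' ≤ N := by
  have hF : 0 < F := by linarith
  have h3 : 2 * F * (Φ + D) ≤ Φ * (2 * F + B) := by nlinarith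
  have h4 : (2 * F * (Φ + D)) ^ 2 ≤ (Φ * (2 * F + B)) ^ 2 := by
    apply pow_le_pow_left₀ (by positivity) h3
  have h5 : (2 * F * (Φ + D)) ^ 2 * F' ≤ (Φ * (2 * F + B)) ^ 2 * (F - B) :=
    mul_le_mul h4 hFF hF' (by positivity)
  have h6 : (2 * F + B) ^ 2 * (F - B) ≤ 4 * F ^ 3 := by
    nlinarith [mul_pos hF (mul_pos hB hB), pow_pos hB 3]
  have h7 : (Φ * (2 * F + B)) ^ 2 * (F - B) ≤ Φ ^ 2 * (4 * F ^ 3) := by
    rw [mul_pow, mul_assoc]
    exact mul_le_mul_of_nonneg_left h6 (by positivity)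
  have h8 : (4 * F ^ 2) * ((Φ + D) ^ 2 * F') ≤ (4 * F ^ 2) * (Φ ^ 2 * F) := by
    calc (4 * F ^ 2) * ((Φ + D) ^ 2 * F') = (2 * F * (Φ + D)) ^ 2 * F' := by ring
      _ ≤ Φ ^ 2 * (4 * F ^ 3) := h5.trans h7
      _ = (4 * F ^ 2) * (Φ ^ 2 * F) := by ring
  have h9 := le_of_mul_le_mul_left h8 (by positivity)
  nlinarith

/-- The step for the sum of squares. Here `g = F ^ (1/4)`, `g' = F' ^ (1/4)`, `h = B ^ (1/2)`. -/
lemma q_step {Φ D P n g g' h : ℝ} (hP : 0 ≤ P) (hn : 0 < n)
    (hg : 0 < g) (hg' : 0 ≤ g') (hh : 0 < h)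
    (hFF : g' ^ 4 ≤ g ^ 4 - h ^ 2) (hPD : 14 * P ^ 2 ≤ D)
    (h1 : 2 * g ^ 4 * D ≤ Φ * h ^ 2) (h2 : 2 * Φ ^ 2 * g ^ 4 ≤ n ^ 4) :
    P * h ≤ n * (g - g') := by
  -- `Φ g² ≤ n²`
  have h3 : Φ * g ^ 2 ≤ n ^ 2 := by
    apply le_of_sq_le_sq _ (by positivity)
    nlinarith [mul_nonneg (sq_nonneg Φ) (pow_nonneg hg.le 4)]
  have h4 : 28 * (P ^ 2 * g ^ 4) ≤ Φ * h ^ 2 := by nlinarith [pow_pos hg 4]
  have h5 : 28 * (P ^ 2 * g ^ 6) ≤ n ^ 2 * h ^ 2 := by
    have h6 : 28 * (P ^ 2 * g ^ 4) * g ^ 2 ≤ Φ * h ^ 2 * g ^ 2 :=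
      mul_le_mul_of_nonneg_right h4 (by positivity)
    have h7 : Φ * g ^ 2 * h ^ 2 ≤ n ^ 2 * h ^ 2 := mul_le_mul_of_nonneg_right h3 (by positivity)
    nlinarith
  have h8 : 5 * (P * g ^ 3) ≤ n * h := by
    apply le_of_sq_le_sq _ (by positivity)
    have : 0 ≤ P ^ 2 * g ^ 6 := by positivity
    nlinarith
  have hgg : g' < g := by
    by_contra hcon
    push Not at hcon
    have : g ^ 4 ≤ g' ^ 4 := pow_le_pow_left₀ hg.le hcon 4
    nlinarith [pow_pos hh 2]
  have h9 : h ^ 2 ≤ 4 * g ^ 3 * (g - g') := by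
    have h10 : g ^ 4 - g' ^ 4 = (g - g') * (g ^ 3 + g ^ 2 * g' + g * g' ^ 2 + g' ^ 3) := by ring
    have h11 : g ^ 3 + g ^ 2 * g' + g * g' ^ 2 + g' ^ 3 ≤ 4 * g ^ 3 := by
      have a1 : g ^ 2 * g' ≤ g ^ 2 * g := mul_le_mul_of_nonneg_left hgg.le (by positivity)
      have a2 : g' ^ 2 ≤ g ^ 2 := pow_le_pow_left₀ hg' hgg.le 2
      have a3 : g * g' ^ 2 ≤ g * g ^ 2 := mul_le_mul_of_nonneg_left a2 hg.le
      have a4 : g' ^ 3 ≤ g ^ 3 := pow_le_pow_left₀ hg' hgg.le 3
      nlinarith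
    have h12 : 0 ≤ g - g' := by linarith
    nlinarith [mul_le_mul_of_nonneg_left h11 h12]
  have h13 : (4 * g ^ 3) * (P * h) ≤ (4 * g ^ 3) * (n * (g - g')) := by
    have a1 : (4 * g ^ 3) * (P * h) = 4 * (P * g ^ 3) * h := by ring
    have a2 : 4 * (P * g ^ 3) * h ≤ n * h * h := by
      have : 4 * (P * g ^ 3) ≤ n * h := by nlinarith [mul_nonneg hP (pow_nonneg hg.le 3)]
      exact mul_le_mul_of_nonneg_right this hh.le
    have a3 : n * h * h ≤ n * (4 * g ^ 3 * (g - g')) := by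
      rw [mul_assoc, ← sq]
      exact mul_le_mul_of_nonneg_left h9 hn.le
    calc (4 * g ^ 3) * (P * h) = 4 * (P * g ^ 3) * h := a1
      _ ≤ n * h * h := a2
      _ ≤ n * (4 * g ^ 3 * (g - g')) := a3
      _ = (4 * g ^ 3) * (n * (g - g')) := by ring
  exact le_of_mul_le_mul_left h13 (by positivity)

end Q167.OneCycle
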